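import Pool.Agent.Helper16.BZ.Stmts

/-! Module AGR of `bz_mods` (MP_7a8f48_an): polynomial growth of the iterates of a unipotent affine
map of the torus. -/

open Finset

namespace Pool.Agent.Helper16.BZ

open Pool.Agent.Helper16.AZ (T)

theorem agr_iter {r : ℕ} (A : Matrix (Fin r) (Fin r) ℤ) (β : T r) (S : T r → T r)
    (hS : Aff A β S) (x y : T r) (n : ℕ) : ∀ i, S^[n] x i - S^[n] y i =
      ∑ j, (A ^ n) i j • (x j - y j) := by
  induction n with
  | zero =>
    intro i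
    simp only [Function.iterate_zero, id_eq, pow_zero]
    rw [Finset.sum_eq_single i]
    · simp
    · intro j _ hj
      rw [Matrix.one_apply_ne (Ne.symm hj), zero_smul]
    · intro h
      exact absurd (mem_univ i) h
  | succ n ih =>
    intro i
    rw [Function.iterate_succ_apply', Function.iterate_succ_apply', hS, hS,
      add_sub_add_right_eq_sub, ← Finset.sum_sub_distrib]
    have h1 : ∀ j, A i j • S^[n] x j - A i j • S^[n] y j =
        ∑ k, (A i j * (A ^ n) j k) • (x k - y k) := by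
      intro j
      rw [← smul_sub, ih j, Finset.smul_sum]
      exact Finset.sum_congr rfl fun k _ => by rw [smul_smul]
    rw [Finset.sum_congr rfl fun j _ => h1 j, Finset.sum_comm]
    refine Finset.sum_congr rfl fun k _ => ?_
    rw [← Finset.sum_smul, pow_succ', Matrix.mul_apply]

theorem agr_pow {r : ℕ} (A : Matrix (Fin r) (Fin r) ℤ) (hA : (A - 1) ^ r = 0) :
    ∃ c : ℝ, 0 ≤ c ∧ ∀ (n : ℕ) (i j : Fin r), |(((A ^ n) i j : ℤ) : ℝ)| ≤ c * ((n : ℝ) + 1) ^ r := by
  set N := A - 1 with hN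
  have hAN : A = N + 1 := by rw [hN]; abel
  refine ⟨∑ k ∈ range r, ∑ i, ∑ j, |(((N ^ k) i j : ℤ) : ℝ)|,
    Finset.sum_nonneg fun _ _ => Finset.sum_nonneg fun _ _ => Finset.sum_nonneg fun _ _ =>
      abs_nonneg _, ?_⟩
  intro n i j
  have h1 : A ^ n = ∑ m ∈ range (n + 1), (n.choose m : ℤ) • N ^ m := by
    rw [hAN, (Commute.one_right N).add_pow]
    refine Finset.sum_congr rfl fun m _ => ?_
    rw [one_pow, mul_one, zsmul_eq_mul, Int.cast_natCast]
    exact ((Nat.cast_commute _ _).eq).symm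
  have h2 : ((A ^ n) i j : ℤ) = ∑ m ∈ range (n + 1), (n.choose m : ℤ) * (N ^ m) i j := by
    rw [h1, Matrix.sum_apply]
    exact Finset.sum_congr rfl fun m _ => by rw [Matrix.smul_apply, smul_eq_mul]
  have hn1 : (1 : ℝ) ≤ (n : ℝ) + 1 := by
    have : (0 : ℝ) ≤ n := Nat.cast_nonneg n
    linarith
  have h3 : |(((A ^ n) i j : ℤ) : ℝ)| ≤
      ∑ m ∈ range (n + 1), (n.choose m : ℝ) * |(((N ^ m) i j : ℤ) : ℝ)| := by
    rw [h2]
    push_cast
    refine (Finset.abs_sum_le_sum_abs _ _).trans (le_of_eq ?_)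
    refine Finset.sum_congr rfl fun m _ => ?_
    rw [abs_mul, abs_of_nonneg (Nat.cast_nonneg _)]
  have h4 : ∀ m ∈ range (n + 1), (n.choose m : ℝ) * |(((N ^ m) i j : ℤ) : ℝ)| ≤
      if m < r then (∑ i, ∑ j, |(((N ^ m) i j : ℤ) : ℝ)|) * ((n : ℝ) + 1) ^ r else 0 := by
    intro m _
    split_ifs with hm
    · have e1 : (n.choose m : ℝ) ≤ ((n : ℝ) + 1) ^ r := by
        have : (n.choose m : ℝ) ≤ (n : ℝ) ^ m := by exact_mod_cast Nat.choose_le_pow n m
        refine this.trans ?_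
        refine (pow_le_pow_left₀ (Nat.cast_nonneg n) (by linarith : (n : ℝ) ≤ n + 1) m).trans ?_
        exact pow_le_pow_right₀ hn1 hm.le
      have e2 : |(((N ^ m) i j : ℤ) : ℝ)| ≤ ∑ i, ∑ j, |(((N ^ m) i j : ℤ) : ℝ)| := by
        refine (Finset.single_le_sum (f := fun j => |(((N ^ m) i j : ℤ) : ℝ)|)
          (fun _ _ => abs_nonneg _) (mem_univ j)).trans ?_
        exact Finset.single_le_sum (f := fun i => ∑ j, |(((N ^ m) i j : ℤ) : ℝ)|)
          (fun _ _ => Finset.sum_nonneg fun _ _ => abs_nonneg _) (mem_univ i)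
      rw [mul_comm (∑ i, ∑ j, |(((N ^ m) i j : ℤ) : ℝ)|)]
      exact mul_le_mul e1 e2 (abs_nonneg _) (by positivity)
    · have : N ^ m = 0 := by
        obtain ⟨k, rfl⟩ := Nat.exists_eq_add_of_le (not_lt.1 hm)
        rw [pow_add, hA, zero_mul]
      rw [this]
      simp
  refine h3.trans ((Finset.sum_le_sum h4).trans ?_)
  rw [Finset.sum_mul, ← Finset.sum_filter]
  refine Finset.sum_le_sum_of_subset_of_nonneg ?_ ?_
  · intro m hm
    exact mem_range.2 (mem_filter.1 hm).2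
  · intro m _ _
    exact mul_nonneg (Finset.sum_nonneg fun _ _ => Finset.sum_nonneg fun _ _ => abs_nonneg _)
      (by positivity)

theorem st_AGR : ST_AGR := by
  intro r A β S hA hS
  obtain ⟨c, hc0, hc⟩ := agr_pow A hA
  refine ⟨max 1 (r * c), r, le_max_left _ _, ?_⟩
  intro n x y
  have hn0 : (0 : ℝ) ≤ (n : ℝ) := Nat.cast_nonneg n
  have hR : 0 ≤ max 1 ((r : ℝ) * c) * ((n : ℝ) + 1) ^ r * dist x y := by positivity
  rw [dist_pi_le_iff hR]
  intro i
  rw [dist_eq_norm, agr_iter A β S hS x y n i]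
  have h1 : ∀ j, ‖(A ^ n) i j • (x j - y j)‖ ≤ c * ((n : ℝ) + 1) ^ r * dist x y := by
    intro j
    refine (norm_zsmul_le _ _).trans ?_
    have e1 : ‖x j - y j‖ ≤ dist x y := by
      rw [← dist_eq_norm]; exact dist_le_pi_dist x y j
    have e2 : ‖((A ^ n) i j : ℤ)‖ ≤ c * ((n : ℝ) + 1) ^ r := by
      rw [Int.norm_eq_abs]; exact hc n i j
    exact mul_le_mul e2 e1 (norm_nonneg _) (by positivity)
  refine (norm_sum_le _ _).trans ((Finset.sum_le_sum fun j _ => h1 j).trans ?_)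
  rw [Finset.sum_const, card_univ, Fintype.card_fin, nsmul_eq_mul]
  have h2 : (r : ℝ) * c ≤ max 1 ((r : ℝ) * c) := le_max_right _ _
  have h3 : 0 ≤ ((n : ℝ) + 1) ^ r * dist x y := by positivity
  nlinarith [mul_le_mul_of_nonneg_right h2 h3]

end Pool.Agent.Helper16.BZ
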